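import Mathlib
import Pool.Agent.W66.GF
import Pool.Agent.H447R2.ML.Spec
import Pool.Agent.H473R4.Count

set_option autoImplicit false

/-!
# Fibonacci and Lucas primes: the asymptotic law for almost every amplitude

Every real sequence with `G (n + 2) = G (n + 1) + G n` is `β φ ^ n + c ψ ^ n`, where `φ` is the
golden ratio and `ψ = - 1 / φ`.  For real `c`, real `β > 0` and a prime `p` let `W c β p` be the
`p`-rough part (the product, with multiplicity, of the prime factors larger than `p`) of
`⌊β φ ^ p + c ψ ^ p⌋`, and let `N c β n` be the number of primes `p ≤ n` with `W c β p` prime.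
At `(c, β) = (- 1 / √5, 1 / √5)` the number `W c β p` is the Fibonacci number `F_p`, at
`(c, β) = (1, 1)` it is the Lucas number.  The base is the fixed irrational number `φ`.  We prove
that for every `c` and almost every `β > 0` the limit of `N c β n / log n` exists and equals
`e ^ γ / log φ`.
-/

namespace Pool.Agent.Results.MP_5893d7_nt.GoldenLaw

open Filter Topology MeasureTheory

/-- The product, with multiplicity, of the prime factors of `m` that are larger than `p`. -/
def roughPart (p m : ℕ) : ℕ := (m.primeFactorsList.filter (fun r => p < r)).prod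

/-- The `p`-rough part of `⌊β φ ^ p + c ψ ^ p⌋`. -/
noncomputable def W (c β : ℝ) (p : ℕ) : ℕ :=
  roughPart p ⌊β * Real.goldenRatio ^ p + c * Real.goldenConj ^ p⌋₊

/-- The number of primes `p ≤ n` for which `W c β p` is prime. -/
noncomputable def N (c β : ℝ) (n : ℕ) : ℕ :=
  ((Finset.range (n + 1)).filter (fun p => p.Prime ∧ (W c β p).Prime)).card

/-- The Lucas numbers. -/
def luc : ℕ → ℕ
  | 0 => 2
  | 1 => 1
  | (n + 2) => luc (n + 1) + luc n

lemma U_eq_fib : ∀ n : ℕ, Pool.Agent.H447R2.ML.U 1 n = Nat.fib n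
  | 0 => rfl
  | 1 => rfl
  | (n + 2) => by
      rw [Pool.Agent.H447R2.ML.U_add_two, U_eq_fib (n + 1), U_eq_fib n, Nat.fib_add_two]
      ring

lemma V_eq_luc : ∀ n : ℕ, Pool.Agent.H447R2.ML.V 1 n = luc n
  | 0 => rfl
  | 1 => rfl
  | (n + 2) => by
      rw [Pool.Agent.H447R2.ML.V_add_two, V_eq_luc (n + 1), V_eq_luc n]
      show 1 * luc (n + 1) + luc n = luc (n + 1) + luc n
      ring

lemma closed (n : ℕ) : (Nat.fib n : ℝ) * Real.sqrt 5 = Real.goldenRatio ^ n - Real.goldenConj ^ n ∧
    (luc n : ℝ) = Real.goldenRatio ^ n + Real.goldenConj ^ n := by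
  have h := Pool.Agent.H447R2.ML.closed 1 (s := Real.sqrt 5) (α := Real.goldenRatio)
    (ψ := Real.goldenConj) (by rw [Real.sq_sqrt (by norm_num)]; norm_num)
    (by unfold Real.goldenRatio; push_cast; ring) (by unfold Real.goldenConj; push_cast; ring) n
  rw [U_eq_fib, V_eq_luc] at h
  exact h

/-- Fibonacci numbers. -/
lemma special_fib {p : ℕ} (hp : p.Prime) (h7 : 7 ≤ p) :
    W (-1 / Real.sqrt 5) (1 / Real.sqrt 5) p = Nat.fib p := by
  have h5 : (0 : ℝ) < Real.sqrt 5 := Real.sqrt_pos.2 (by norm_num)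
  have hnd : ¬ p ∣ 1 ^ 2 + 4 := by
    intro h
    have := Nat.le_of_dvd (by norm_num) h
    omega
  have hx : 1 / Real.sqrt 5 * Real.goldenRatio ^ p + -1 / Real.sqrt 5 * Real.goldenConj ^ p =
      Pool.Agent.H447R2.ML.U 1 p := by
    rw [U_eq_fib]
    have h1 := (closed p).1
    field_simp
    linarith
  have h := Pool.Agent.H447R2.ML.rough_U 1 one_pos hp (by omega) hnd hx
  rw [U_eq_fib] at h
  exact h

/-- Lucas numbers. -/
lemma special_luc {p : ℕ} (hp : p.Prime) (h5 : 5 ≤ p) : W 1 1 p = luc p := by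
  have hx : 1 * Real.goldenRatio ^ p + 1 * Real.goldenConj ^ p = luc p := by
    rw [(closed p).2]; ring
  unfold W
  rw [hx, Nat.floor_natCast, ← V_eq_luc]
  refine Pool.Agent.H447R2.ML.roughPart_eq_self ?_ fun q hq h => ?_
  · exact (Pool.Agent.H447R2.ML.V_pos 1 p one_pos).ne'
  · refine Pool.Agent.H447R2.ML.lt_of_dvd_V 1 hp h5 ?_ hq ?_ h
    · exact fun h1 => hp.one_lt.ne' (Nat.dvd_one.1 h1)
    · exact fun h1 => hq.one_lt.ne' (Nat.dvd_one.1 h1)

theorem result :
    -- Fibonacci and Lucas numbers are the values at two points of the family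
    (∀ p : ℕ, p.Prime → 7 ≤ p → W (-1 / Real.sqrt 5) (1 / Real.sqrt 5) p = Nat.fib p) ∧
    (∀ p : ℕ, p.Prime → 5 ≤ p → W 1 1 p = luc p) ∧
    -- Q1 is the unboundedness of the counting function at the first point
    ({n : ℕ | (Nat.fib n).Prime}.Infinite ↔
      Tendsto (fun n => N (-1 / Real.sqrt 5) (1 / Real.sqrt 5) n) atTop atTop) ∧
    -- Q2 for the prime indices is the unboundedness at the second point
    ({p : ℕ | p.Prime ∧ (luc p).Prime}.Infinite ↔ Tendsto (fun n => N 1 1 n) atTop atTop) ∧
    -- the law for almost every amplitude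
    (∀ c : ℝ, ∀ᵐ β : ℝ, 0 < β →
      Tendsto (fun n : ℕ => (N c β n : ℝ) / Real.log n) atTop
        (𝓝 (Real.exp Real.eulerMascheroniConstant / Real.log Real.goldenRatio))) := by
  refine ⟨fun p hp h7 => special_fib hp h7, fun p hp h5 => special_luc hp h5, ?_, ?_, fun c => ?_⟩
  · refine Iff.trans ?_ (Pool.Agent.H473R4.tendsto_iff (W (-1 / Real.sqrt 5) (1 / Real.sqrt 5))
      (fun n => (Nat.fib n).Prime) 7 (fun p hp h7 => by rw [special_fib hp h7]))
    constructor
    · intro h
      have h2 := h.diff (Set.finite_singleton 4)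
      refine h2.mono fun n hn => ?_
      exact ⟨Pool.Agent.H473R4.fib_prime_index hn.1 (by simpa using hn.2), hn.1⟩
    · intro h
      exact h.mono fun n hn => hn.2
  · exact Pool.Agent.H473R4.tendsto_iff (W 1 1) (fun n => (luc n).Prime) 5
      (fun p hp h5 => by rw [special_luc hp h5])
  · have hψ : |Real.goldenConj| < 1 := by
      rw [abs_of_neg Real.goldenConj_neg]
      linarith [Real.neg_one_lt_goldenConj]
    have key := Pool.Agent.W66V.law_irr (α := Real.goldenRatio) (κ := 1) (C := |c|) (A := 1)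
      (g := fun p => c * Real.goldenConj ^ p) Real.one_lt_goldenRatio zero_le_one
      Real.one_lt_goldenRatio (by
        intro p
        rw [one_pow, mul_one, abs_mul, abs_pow]
        calc |c| * |Real.goldenConj| ^ p ≤ |c| * 1 :=
              mul_le_mul_of_nonneg_left (pow_le_one₀ (abs_nonneg _) hψ.le) (abs_nonneg _)
          _ = |c| := mul_one _) le_rfl Real.one_lt_goldenRatio Pool.Agent.W66V.noCoinc_golden
    filter_upwards [key] with β h hβ
    exact h hβ

end Pool.Agent.Results.MP_5893d7_nt.GoldenLaw
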