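import Mathlib
import Pool.Agent.W66.CK
import Pool.Agent.H447R2.ML.Spec
import Pool.Agent.H473R4.Count

set_option autoImplicit false

/-!
# Fibonacci and Lucas primes: the asymptotic law for almost every real parameter

For a real parameter `x > 0` let `U x n` and `V x n` be the Lucas sequence and its companion with
parameters `(P, Q) = (x, -1)`: both satisfy `G (n + 2) = x * G (n + 1) + G n`.  At `x = 1` they are
the Fibonacci and the Lucas numbers.  For a function `A` and a prime `p` let `WU A x p` and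
`WV A x p` be the `p`-rough parts (the product, with multiplicity, of the prime factors larger than
`p`) of `⌊A x * U x p⌋` and `⌊A x * V x p⌋`, and let `NU A x n` and `NV A x n` be the number of
primes `p ≤ n` for which these are prime.  We prove that for every positive `C ^ 2` function `A` on
`(0, ∞)` and almost every `x > 0` the limits of `NU A x n / log n` and `NV A x n / log n` exist and
equal `e ^ γ / log α`, where `α = (x + √(x ^ 2 + 4)) / 2` is the dominant root.
-/

namespace Pool.Agent.Results.MP_5893d7_nt.RealParameterLaw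

open Filter Topology MeasureTheory

/-- The product, with multiplicity, of the prime factors of `m` that are larger than `p`. -/
def roughPart (p m : ℕ) : ℕ := (m.primeFactorsList.filter (fun r => p < r)).prod

/-- The Lucas sequence with parameters `(x, -1)`. -/
noncomputable def U (x : ℝ) : ℕ → ℝ
  | 0 => 0
  | 1 => 1
  | (n + 2) => x * U x (n + 1) + U x n

/-- The companion Lucas sequence with parameters `(x, -1)`. -/
noncomputable def V (x : ℝ) : ℕ → ℝ
  | 0 => 2
  | 1 => x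
  | (n + 2) => x * V x (n + 1) + V x n

/-- The `p`-rough part of `⌊A x * U x p⌋`. -/
noncomputable def WU (A : ℝ → ℝ) (x : ℝ) (p : ℕ) : ℕ := roughPart p ⌊A x * U x p⌋₊

/-- The `p`-rough part of `⌊A x * V x p⌋`. -/
noncomputable def WV (A : ℝ → ℝ) (x : ℝ) (p : ℕ) : ℕ := roughPart p ⌊A x * V x p⌋₊

/-- The number of primes `p ≤ n` for which `WU A x p` is prime. -/
noncomputable def NU (A : ℝ → ℝ) (x : ℝ) (n : ℕ) : ℕ :=
  ((Finset.range (n + 1)).filter (fun p => p.Prime ∧ (WU A x p).Prime)).card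

/-- The number of primes `p ≤ n` for which `WV A x p` is prime. -/
noncomputable def NV (A : ℝ → ℝ) (x : ℝ) (n : ℕ) : ℕ :=
  ((Finset.range (n + 1)).filter (fun p => p.Prime ∧ (WV A x p).Prime)).card

/-- The Lucas numbers. -/
def luc : ℕ → ℕ
  | 0 => 2
  | 1 => 1
  | (n + 2) => luc (n + 1) + luc n

lemma U_eq (x : ℝ) : ∀ n : ℕ, U x n = Pool.Agent.W66C.lU x n
  | 0 => rfl
  | 1 => rfl
  | (n + 2) => by
      show x * U x (n + 1) + U x n =
        x * Pool.Agent.W66C.lU x (n + 1) + Pool.Agent.W66C.lU x n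
      rw [U_eq x (n + 1), U_eq x n]

lemma V_eq (x : ℝ) : ∀ n : ℕ, V x n = Pool.Agent.W66C.lV x n
  | 0 => rfl
  | 1 => rfl
  | (n + 2) => by
      show x * V x (n + 1) + V x n =
        x * Pool.Agent.W66C.lV x (n + 1) + Pool.Agent.W66C.lV x n
      rw [V_eq x (n + 1), V_eq x n]

lemma U_one : ∀ n : ℕ, U 1 n = (Nat.fib n : ℝ)
  | 0 => by simp [U]
  | 1 => by simp [U]
  | (n + 2) => by
      show 1 * U 1 (n + 1) + U 1 n = _
      rw [U_one (n + 1), U_one n, Nat.fib_add_two]
      push_cast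
      ring

lemma V_one : ∀ n : ℕ, V 1 n = (luc n : ℝ)
  | 0 => by simp [V, luc]
  | 1 => by simp [V, luc]
  | (n + 2) => by
      show 1 * V 1 (n + 1) + V 1 n = _
      rw [V_one (n + 1), V_one n]
      show _ = ((luc (n + 1) + luc n : ℕ) : ℝ)
      push_cast
      ring

lemma U_eq_fib : ∀ n : ℕ, Pool.Agent.H447R2.ML.U 1 n = Nat.fib n
  | 0 => rfl
  | 1 => rfl
  | (n + 2) => by
      rw [Pool.Agent.H447R2.ML.U_add_two, U_eq_fib (n + 1), U_eq_fib n, Nat.fib_add_two]
      ring

lemma V_eq_luc : ∀ n : ℕ, Pool.Agent.H447R2.ML.V 1 n = luc n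
  | 0 => rfl
  | 1 => rfl
  | (n + 2) => by
      rw [Pool.Agent.H447R2.ML.V_add_two, V_eq_luc (n + 1), V_eq_luc n]
      show 1 * luc (n + 1) + luc n = luc (n + 1) + luc n
      ring

/-- Fibonacci numbers. -/
lemma special_fib {A : ℝ → ℝ} (hA : A 1 = 1) {p : ℕ} (hp : p.Prime) (h7 : 7 ≤ p) :
    WU A 1 p = Nat.fib p := by
  have hnd : ¬ p ∣ 1 ^ 2 + 4 := by
    intro h
    have := Nat.le_of_dvd (by norm_num) h
    omega
  have hx : A 1 * U 1 p = Pool.Agent.H447R2.ML.U 1 p := by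
    rw [U_eq_fib, hA, U_one, one_mul]
  have h := Pool.Agent.H447R2.ML.rough_U 1 one_pos hp (by omega) hnd hx
  rw [U_eq_fib] at h
  exact h

lemma U_nat (P : ℕ) : ∀ n : ℕ, U P n = (Pool.Agent.H447R2.ML.U P n : ℝ)
  | 0 => by simp [U, Pool.Agent.H447R2.ML.U]
  | 1 => by simp [U, Pool.Agent.H447R2.ML.U]
  | (n + 2) => by
      show (P : ℝ) * U P (n + 1) + U P n = _
      rw [U_nat P (n + 1), U_nat P n, Pool.Agent.H447R2.ML.U_add_two]
      push_cast
      ring

/-- Terms of prime index at the integer parameters. -/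
lemma special_int {A : ℝ → ℝ} {P : ℕ} (hP : 0 < P) (hA : A P = 1) {p : ℕ} (hp : p.Prime)
    (h5 : 5 ≤ p) (hnd : ¬ p ∣ P ^ 2 + 4) : (WU A P p : ℝ) = U P p := by
  have hx : A P * U P p = Pool.Agent.H447R2.ML.U P p := by
    rw [hA, U_nat, one_mul]
  have h := Pool.Agent.H447R2.ML.rough_U P hP hp h5 hnd hx
  rw [U_nat, ← h]
  rfl

/-- Lucas numbers. -/
lemma special_luc {A : ℝ → ℝ} (hA : A 1 = 1) {p : ℕ} (hp : p.Prime) (h5 : 5 ≤ p) :
    WV A 1 p = luc p := by
  have hx : A 1 * V 1 p = luc p := by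
    rw [hA, V_one, one_mul]
  unfold WV
  rw [hx, Nat.floor_natCast, ← V_eq_luc]
  refine Pool.Agent.H447R2.ML.roughPart_eq_self ?_ fun q hq h => ?_
  · exact (Pool.Agent.H447R2.ML.V_pos 1 p one_pos).ne'
  · refine Pool.Agent.H447R2.ML.lt_of_dvd_V 1 hp h5 ?_ hq ?_ h
    · exact fun h1 => hp.one_lt.ne' (Nat.dvd_one.1 h1)
    · exact fun h1 => hq.one_lt.ne' (Nat.dvd_one.1 h1)

theorem result :
    -- at the integer parameters the numbers are the terms of the Lucas sequences
    (∀ A : ℝ → ℝ, ∀ P : ℕ, 0 < P → A P = 1 → ∀ p : ℕ, p.Prime → 5 ≤ p → ¬ p ∣ P ^ 2 + 4 →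
      (WU A P p : ℝ) = U P p) ∧
    -- Fibonacci and Lucas numbers are the values at the parameter `1`
    (∀ A : ℝ → ℝ, A 1 = 1 → ∀ p : ℕ, p.Prime → 7 ≤ p → WU A 1 p = Nat.fib p) ∧
    (∀ A : ℝ → ℝ, A 1 = 1 → ∀ p : ℕ, p.Prime → 5 ≤ p → WV A 1 p = luc p) ∧
    -- Q1 is the unboundedness of the first counting function at the parameter `1`
    (∀ A : ℝ → ℝ, A 1 = 1 → ({n : ℕ | (Nat.fib n).Prime}.Infinite ↔
      Tendsto (fun n => NU A 1 n) atTop atTop)) ∧
    -- Q2 for the prime indices is the unboundedness of the second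
    (∀ A : ℝ → ℝ, A 1 = 1 → ({p : ℕ | p.Prime ∧ (luc p).Prime}.Infinite ↔
      Tendsto (fun n => NV A 1 n) atTop atTop)) ∧
    -- the laws along every curve, for almost every real parameter
    (∀ A : ℝ → ℝ, ContDiffOn ℝ 2 A (Set.Ioi 0) → (∀ x : ℝ, 0 < x → 0 < A x) →
      ∀ᵐ x : ℝ, 0 < x → Tendsto (fun n : ℕ => (NU A x n : ℝ) / Real.log n) atTop
        (𝓝 (Real.exp Real.eulerMascheroniConstant / Real.log ((x + Real.sqrt (x ^ 2 + 4)) / 2)))) ∧
    (∀ A : ℝ → ℝ, ContDiffOn ℝ 2 A (Set.Ioi 0) → (∀ x : ℝ, 0 < x → 0 < A x) →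
      ∀ᵐ x : ℝ, 0 < x → Tendsto (fun n : ℕ => (NV A x n : ℝ) / Real.log n) atTop
        (𝓝 (Real.exp Real.eulerMascheroniConstant / Real.log ((x + Real.sqrt (x ^ 2 + 4)) / 2)))) := by
  refine ⟨fun A P hP hA p hp h5 hnd => special_int hP hA hp h5 hnd,
    fun A hA p hp h7 => special_fib hA hp h7, fun A hA p hp h5 => special_luc hA hp h5,
    fun A hA => ?_, fun A hA => ?_, fun A hA hpos => ?_, fun A hA hpos => ?_⟩
  · refine Iff.trans ?_ (Pool.Agent.H473R4.tendsto_iff (WU A 1)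
      (fun n => (Nat.fib n).Prime) 7 (fun p hp h7 => by rw [special_fib hA hp h7]))
    constructor
    · intro h
      have h2 := h.sdiff (Set.finite_singleton 4)
      refine h2.mono fun n hn => ?_
      exact ⟨Pool.Agent.H473R4.fib_prime_index hn.1 (by simpa using hn.2), hn.1⟩
    · intro h
      exact h.mono fun n hn => hn.2
  · exact Pool.Agent.H473R4.tendsto_iff (WV A 1) (fun n => (luc n).Prime) 5
      (fun p hp h5 => by rw [special_luc hA hp h5])
  · have h := Pool.Agent.W66C.law_U_curve hA hpos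
    simp only [← U_eq] at h
    exact h
  · have h := Pool.Agent.W66C.law_V_curve hA hpos
    simp only [← V_eq] at h
    exact h

end Pool.Agent.Results.MP_5893d7_nt.RealParameterLaw
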